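import Mathlib
import Pool.Agent.Lib.MP_4a7e1d_al.FinD

/-!
A finite hyperfield which is a quotient of a skew field but not a quotient of any field: the
quaternion division algebra over the three-adic numbers modulo the elements whose reduced norm has
valuation divisible by seven and unit part congruent to one modulo 27.
-/

set_option autoImplicit false

namespace Pool.Agent.Results.MP_4a7e1d_al.FiniteSkew

universe u v

/-- The underlying set `{0} ∪ Fˣ/Γ` of the quotient `F/Γ`. -/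
abbrev Car {F : Type v} [DivisionRing F] (Γ : Subgroup Fˣ) : Type v := WithZero (Fˣ ⧸ Γ)

open Classical in
/-- The class `[x]` of `x : F` in `F/Γ = {0} ∪ Fˣ/Γ`. -/
noncomputable def cls {F : Type v} [DivisionRing F] (Γ : Subgroup Fˣ) (x : F) : Car Γ :=
  if h : x = 0 then 0 else ((QuotientGroup.mk (Units.mk0 x h) : Fˣ ⧸ Γ) : WithZero (Fˣ ⧸ Γ))

/-- The induced multiplication on `F/Γ`. -/
def hmul {F : Type v} [DivisionRing F] (Γ : Subgroup Fˣ) [Γ.Normal] (a b : Car Γ) : Car Γ :=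
  a * b

/-- The hypersum of two classes: all classes `[x + y]` with `x`, `y` representatives. -/
def hadd {F : Type v} [DivisionRing F] (Γ : Subgroup Fˣ) (a b : Car Γ) : Set (Car Γ) :=
  {c | ∃ x y : F, cls Γ x = a ∧ cls Γ y = b ∧ cls Γ (x + y) = c}

/-- `F/Γ` and `K/Δ` are isomorphic as hyperfields. -/
def Iso {F : Type v} [DivisionRing F] (Γ : Subgroup Fˣ) [Γ.Normal]
    {K : Type u} [DivisionRing K] (Δ : Subgroup Kˣ) [Δ.Normal] : Prop :=
  ∃ f : Car Γ → Car Δ, Function.Bijective f ∧ f (cls Γ 0) = cls Δ 0 ∧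
    (∀ a b, f (hmul Γ a b) = hmul Δ (f a) (f b)) ∧
    ∀ a b, f '' hadd Γ a b = hadd Δ (f a) (f b)

section

open Pool.Agent.Lib.MP_4a7e1d_al.Fin

variable {F : Type v} [DivisionRing F] (Γ : Subgroup Fˣ)

lemma cls_eq_zero (x : F) : cls Γ x = 0 ↔ x = 0 := by
  unfold cls
  split_ifs with h <;> simp [h]

lemma cls_surj (a : WithZero (Fˣ ⧸ Γ)) : ∃ x, cls Γ x = a := by
  induction a using WithZero.recZeroCoe with
  | zero => exact ⟨0, by simp [cls]⟩
  | coe q =>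
    obtain ⟨x, rfl⟩ := QuotientGroup.mk_surjective q
    exact ⟨x, by simp [cls]⟩

variable [Γ.Normal]

lemma cls_mul (x y : F) : cls Γ (x * y) = cls Γ x * cls Γ y := by
  by_cases hx : x = 0
  · simp [hx, cls]
  by_cases hy : y = 0
  · simp [hy, cls]
  have hxy : x * y ≠ 0 := mul_ne_zero hx hy
  simp only [cls, hx, hy, hxy, dite_false]
  rw [← WithZero.coe_mul, ← QuotientGroup.mk_mul, Units.mk0_mul]

lemma idem {a : Car Γ} (h : a = a * a) (h0 : a ≠ 0) : a = 1 := (left_eq_mul₀ h0).1 h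

lemma cls_one : cls Γ 1 = 1 :=
  idem Γ (by rw [← cls_mul, mul_one]) fun h0 => one_ne_zero ((cls_eq_zero Γ 1).1 h0)

lemma shift {b c : Car Γ} (h : c ∈ hadd Γ 1 b) : ∃ x, cls Γ x = b ∧ cls Γ (1 + x) = c := by
  obtain ⟨x, y, hx, rfl, rfl⟩ := h
  have h0 : x ≠ 0 := fun h0 => one_ne_zero (hx.symm.trans ((cls_eq_zero Γ x).2 h0))
  refine ⟨x⁻¹ * y, ?_, ?_⟩
  · rw [← one_mul (cls Γ _), ← hx, ← cls_mul, mul_inv_cancel_left₀ h0]
  · rw [← one_mul (cls Γ _), ← hx, ← cls_mul, mul_add, mul_inv_cancel_left₀ h0, mul_one]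

lemma transfer {K : Type u} [Field K] (Δ : Subgroup Kˣ) {w : F → ZMod 7} {ρ : F → ZMod 27}
    (h : Dat w ρ) (hc : ∀ x y, x ≠ 0 → cls Γ x = cls Γ y → w x = w y ∧ ρ x = ρ y) :
    ¬ Iso Γ Δ := by
  rintro ⟨f, hbij, h0, hm', ha⟩
  rw [(cls_eq_zero _ _).2 rfl, (cls_eq_zero _ _).2 rfl] at h0
  have hm : ∀ a b, f (a * b) = f a * f b := hm'
  have hz : ∀ {x' : F} {x : K}, f (cls Γ x') = cls Δ x → (x' = 0 ↔ x = 0) := fun e => by
    rw [← cls_eq_zero Δ, ← e, ← h0, hbij.1.eq_iff, cls_eq_zero]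
  have h1 : f 1 = 1 :=
    idem Δ (by rw [← hm, mul_one]) fun e0 => one_ne_zero (hbij.1 (e0.trans h0.symm))
  have hg : ∀ x : K, ∃ x' : F, f (cls Γ x') = cls Δ x := fun x => by
    obtain ⟨a, e⟩ := hbij.2 (cls Δ x)
    obtain ⟨x', rfl⟩ := cls_surj Γ a
    exact ⟨x', e⟩
  choose g hg using hg
  have hr : ∀ {x' : F} {x : K}, f (cls Γ x') = cls Δ x → x ≠ 0 →
      w (g x) = w x' ∧ ρ (g x) = ρ x' := fun e n =>
    hc _ _ (mt (hz (hg _)).1 n) (hbij.1 ((hg _).trans e.symm))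
  have up : ∀ x : K, ∃ x' : F, f (cls Γ x') = cls Δ x ∧ f (cls Γ (1 + x')) = cls Δ (1 + x) :=
    fun x => by
      have e : cls Δ (1 + x) ∈ f '' hadd Γ 1 (cls Γ (g x)) := by
        rw [ha, h1, hg]
        exact ⟨1, x, cls_one Δ, rfl, rfl⟩
      obtain ⟨c, e1, e2⟩ := e
      obtain ⟨x', e3, rfl⟩ := shift Γ e1
      exact ⟨x', by rw [e3, hg], e2⟩
  have down : ∀ {i n m}, Occ w ρ i n m → Occ (fun x => w (g x)) (fun x => ρ (g x)) i n m := by
    rintro i n m ⟨x', n0, n1, e1, e2, e3, e4⟩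
    have e : f (cls Γ (1 + x')) ∈ hadd Δ 1 (f (cls Γ x')) := by
      rw [← h1, ← ha]
      exact ⟨_, ⟨1, x', cls_one Γ, rfl, rfl⟩, rfl⟩
    obtain ⟨x, e5, e6⟩ := shift Δ e
    have m0 := mt (hz e5.symm).2 n0
    have m1 := mt (hz e6.symm).2 n1
    exact ⟨x, m0, m1, (hr e5.symm m0).1.trans e1, (hr e5.symm m0).2.trans e2,
      (hr e6.symm m1).1.trans e3, (hr e6.symm m1).2.trans e4⟩
  have mu : ∀ x y : K, f (cls Γ (g x * g y)) = cls Δ (x * y) := fun x y => by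
    rw [cls_mul, hm, hg, hg, cls_mul]
  refine Dat.false (w := fun x => w (g x)) (ρ := fun x => ρ (g x))
    ⟨fun x y hx hy => ?_, fun x y hx hy => ?_, ?_, ?_, fun x hx hx1 => ?_, down h.e1, down h.e2,
      down h.e3, down h.e4⟩
  · exact (hr (mu x y) (mul_ne_zero hx hy)).1.trans
      (h.w_mul _ _ (mt (hz (hg _)).1 hx) (mt (hz (hg _)).1 hy))
  · exact (hr (mu x y) (mul_ne_zero hx hy)).2.trans
      (h.ρ_mul _ _ (mt (hz (hg _)).1 hx) (mt (hz (hg _)).1 hy))
  · exact (hr (x' := 1) (by rw [cls_one, cls_one, h1]) one_ne_zero).2.trans h.ρ_one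
  · obtain ⟨x', e1, e2⟩ := up (-1)
    obtain rfl := eq_neg_of_add_eq_zero_right ((hz e2).2 (add_neg_cancel 1))
    exact (hr e1 (neg_ne_zero.2 one_ne_zero)).2.trans h.ρ_neg
  · obtain ⟨x', e1, e2⟩ := up x
    have := h.all x' (mt (hz e1).1 hx) (mt (hz e2).1 hx1)
    rwa [← (hr e1 hx).1, ← (hr e1 hx).2, ← (hr e2 hx1).1, ← (hr e2 hx1).2] at this

/-- The class map on the units of the quaternion algebra. -/
noncomputable def chi : Dˣ →* (Multiplicative (ZMod 7) × ZMod 27)ˣ :=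
  MonoidHom.toHomUnits
    { toFun := fun x => (Multiplicative.ofAdd (wD x), ρD x)
      map_one' := Prod.ext (congrArg Multiplicative.ofAdd (left_eq_add.1
        ((congrArg wD (mul_one 1).symm).trans (wD_mul 1 1 one_ne_zero one_ne_zero)))) datD.ρ_one
      map_mul' := fun x y => Prod.ext
        (congrArg Multiplicative.ofAdd (wD_mul _ _ x.ne_zero y.ne_zero))
        (ρD_mul _ _ x.ne_zero y.ne_zero) }

end

open Pool.Agent.Lib.MP_4a7e1d_al.Fin in
theorem result :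
    ∃ (F : Type) (_ : DivisionRing F) (Γ : Subgroup Fˣ) (_ : Γ.Normal),
      Γ.FiniteIndex ∧ (∀ a b : Fˣ ⧸ Γ, a * b = b * a) ∧
      ∀ (K : Type u) [Field K] (Δ : Subgroup Kˣ), ¬ Iso Γ Δ := by
  refine ⟨D, inferInstance, chi.ker, inferInstance, inferInstance, fun a b => ?_,
    fun K _ Δ => transfer _ Δ datD fun x y hx e => ?_⟩
  · apply QuotientGroup.kerLift_injective chi
    rw [map_mul, map_mul, mul_comm]
  · have hy : y ≠ 0 := fun h0 =>
      hx ((cls_eq_zero _ _).1 (e.trans ((cls_eq_zero _ _).2 h0)))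
    simp only [cls, hx, hy, dite_false, WithZero.coe_inj] at e
    have e1 := congrArg (fun a => ((QuotientGroup.kerLift chi a :
      (Multiplicative (ZMod 7) × ZMod 27)ˣ) : Multiplicative (ZMod 7) × ZMod 27)) e
    simp only [QuotientGroup.kerLift_mk] at e1
    exact ⟨Multiplicative.ofAdd.injective (congrArg Prod.fst e1), congrArg Prod.snd e1⟩

end Pool.Agent.Results.MP_4a7e1d_al.FiniteSkew
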